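import Pool.Agent.U834.TwoN.Low
import Pool.Agent.U834.TwoN.Defs

/-!
# MP_efd99a_gt: the equality `#₂ M = dim H(M; ℤ₂)` fails

`totalBetti`, `IsSymmetryAt` and `twoNumber` are defined in `Pool.Agent.Helper381.Defs`, `Riem`
and `NegAt` in `Pool.Agent.U834.TwoN.Defs`.
-/

set_option autoImplicit false

open scoped Manifold ContDiff
open Bundle Manifold
open Pool.Agent.Helper381 Pool.Agent.U834.TwoN

namespace Pool.Agent.Results.MP_efd99a_gt.TwoNumberConjectureFails

/-- There is a compact connected Riemannian manifold `M` (of dimension `9`) such that every point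
`x` of `M` has exactly one symmetry, i.e. an involutive isometry with `x` as an isolated fixed
point; it is smooth and its differential at `x` is `-id`. The two-number of `M` is at most `24`
and the total dimension of the singular cohomology of `M` with coefficients in `ℤ/2` is at
least `32`. -/
theorem result :
    ∃ (V M : Type) (_ : NormedAddCommGroup V) (_ : NormedSpace ℝ V) (_ : MetricSpace M)
      (S : Riem V M), Module.finrank ℝ V = 9 ∧ CompactSpace M ∧ ConnectedSpace M ∧
      (∀ x : M, ∃ s : M ≃ᵢ M, IsSymmetryAt x s ∧ (∀ t : M ≃ᵢ M, IsSymmetryAt x t → t = s) ∧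
        NegAt S x s) ∧
      twoNumber M ≤ 24 ∧ 32 ≤ totalBetti (ZMod 2) M := by
  obtain ⟨Q, i1, i2, i3, i4, i5, i6, i7, i8, p, hc, hs, f1, hsym, hu⟩ :=
    exists_symmetric DD (fun _ h => DD_sg h)
  obtain ⟨Q', j1, j2, j3, j4, j5, j6, j7, j8, p', hc', hs', f1', hsym', hu'⟩ :=
    exists_symmetric EE (fun _ h => EE_sg h)
  refine ⟨E9, Q, inferInstance, inferInstance, i1, ⟨i4, i5, i6, i7, i8⟩, ?_, i2, i3, ?_, ?_, ?_⟩
  · rw [Module.finrank_prod, Module.finrank_prod, finrank_euclideanSpace_fin]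
  · intro x
    obtain ⟨s, h⟩ := hsym x
    obtain ⟨R, G⟩ := riemannian_geo (E := E9) (M := Q)
    obtain ⟨x, rfl⟩ := hs x
    obtain ⟨h1, h2, h3⟩ := hu x s h
    exact ⟨s, h, fun t ht => IsometryEquiv.ext (G.symm_unique ht h), h2, h3⟩
  · exact upper hs f1 (fun x s h => (hu x s h).1)
  · obtain ⟨R, G⟩ := riemannian_geo (E := E9) (M := Q')
    obtain ⟨e⟩ := homeo hc hs f1 hc' hs' f1'
    rw [totalBetti_congr (ZMod 2) e]
    exact (lower f1' hsym' (fun x s h => (hu' x s h).1)).trans G.twoNumber_le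

end Pool.Agent.Results.MP_efd99a_gt.TwoNumberConjectureFails
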